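import Pool.Agent.Lib.MP_3ee548_nt.RS.Iface

/-!
Module ITER of the RS board (MP_3ee548_nt): the bootstrapping gives the exponent 2.
-/

set_option autoImplicit false

namespace Pool.Agent.Lib.MP_3ee548_nt.RS.H74

theorem inv_le_one' (x : ℝ) (hx : 1 ≤ x) : 0 < 1 / x ∧ 1 / x ≤ 1 := by
  have h0 : 0 < x := by linarith
  refine ⟨by positivity, ?_⟩
  rw [div_le_one h0]
  exact hx

theorem stepA (h2 : AsmaStatement) (x : ℝ) (hx : 1 ≤ x) (h : PB (2 + 1 / x)) :
    PA (2 + 1 / (x + 1)) := by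
  obtain ⟨h0, h1⟩ := inv_le_one' x hx
  have key := h2 (2 + 1 / x) (by linarith) (by linarith) h
  have hx0 : x ≠ 0 := by
    intro hh
    rw [hh] at hx
    linarith
  have hx1 : x + 1 ≠ 0 := by
    intro hh
    linarith
  have e1 : 2 + 1 / x - 1 = (x + 1) / x := by
    field_simp
    ring
  have e2 : (7 / 2 - (1 + (2 + 1 / x)) / (2 * (2 + 1 / x - 1)) : ℝ) = 2 + 1 / (x + 1) := by
    rw [e1]
    field_simp
    ring
  rw [e2] at key
  exact key

theorem stepB (h3 : AsmbStatement) (x : ℝ) (hx : 1 ≤ x) (h : PA (2 + 1 / x)) :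
    PB (2 + 1 / (x + 1)) := by
  obtain ⟨h0, h1⟩ := inv_le_one' x hx
  have key := h3 (2 + 1 / x) (by linarith) (by linarith) h
  have hx0 : x ≠ 0 := by
    intro hh
    rw [hh] at hx
    linarith
  have hx1 : x + 1 ≠ 0 := by
    intro hh
    linarith
  have e1 : 2 + 1 / x - 1 = (x + 1) / x := by
    field_simp
    ring
  have e2 : (5 - (2 * (2 + 1 / x) - 1) / (2 + 1 / x - 1) : ℝ) = 2 + 1 / (x + 1) := by
    rw [e1]
    field_simp
    ring
  rw [e2] at key
  exact key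

theorem allB (h1 : TrivbStatement) (h2 : AsmaStatement) (h3 : AsmbStatement) (i : ℕ) :
    PB (2 + 1 / (2 * (i : ℝ) + 1)) := by
  induction i with
  | zero =>
    have e : (2 + 1 / (2 * ((0 : ℕ) : ℝ) + 1) : ℝ) = 3 := by
      norm_num
    rw [e]
    exact h1
  | succ i ih =>
    have hi : (0 : ℝ) ≤ (i : ℝ) := Nat.cast_nonneg i
    have a := stepA h2 (2 * (i : ℝ) + 1) (by linarith) ih
    have b := stepB h3 (2 * (i : ℝ) + 1 + 1) (by linarith) a
    have e : (2 * (((i + 1 : ℕ) : ℝ)) + 1 : ℝ) = 2 * (i : ℝ) + 1 + 1 + 1 := by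
      push_cast
      ring
    rw [e]
    exact b

theorem iter (h1 : TrivbStatement) (h2 : AsmaStatement) (h3 : AsmbStatement) : IterStatement := by
  intro ε hε
  obtain ⟨i, hi⟩ := exists_nat_gt (2 / ε)
  have hi0 : (0 : ℝ) < (i : ℝ) := lt_trans (by positivity) hi
  have hA := stepA h2 (2 * (i : ℝ) + 1) (by linarith) (allB h1 h2 h3 i)
  obtain ⟨C, hC, hQ⟩ := hA (ε / 2) (by linarith)
  refine ⟨C, hC, fun k => ?_⟩
  refine le_trans (hQ k) ?_
  refine mul_le_mul_of_nonneg_left ?_ hC.le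
  refine Real.rpow_le_rpow_of_exponent_le (one_le_pow₀ (by norm_num)) ?_
  have h4 : 1 / (2 * (i : ℝ) + 1 + 1) ≤ ε / 2 := by
    rw [div_le_iff₀ (by linarith)]
    have h5 : 2 < (i : ℝ) * ε := by
      rw [div_lt_iff₀ hε] at hi
      exact hi
    nlinarith
  linarith

end Pool.Agent.Lib.MP_3ee548_nt.RS.H74
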